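import Pool.Agent.Q304.Ham.Main

/-!
MP_04172d_lc, Q1 (answer: yes). There is a Mazurkiewicz set every rotation of which contains the
graph of a Hamel function.
-/

namespace Pool.Agent.Results.MP_04172d_lc.ContainsHamel

open Pool.Agent.Q304.Ham

/-- There is a set `M` of points of the plane that meets every line in exactly two points and such
that for every angle `θ` the set `M` rotated by `θ` about the origin contains the graph of a Hamel
function. -/
theorem result : ∃ M : Set (ℝ × ℝ),
    (∀ a b c : ℝ, (a ≠ 0 ∨ b ≠ 0) → {p ∈ M | a * p.1 + b * p.2 = c}.ncard = 2) ∧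
    ∀ θ : ℝ, ∃ f : ℝ → ℝ, Hamel f ∧ {p | p.2 = f p.1} ⊆ rot θ '' M := by
  obtain ⟨M, h1, h2⟩ := main
  refine ⟨M, h1, fun θ => ?_⟩
  obtain ⟨f, g, hf, _, h⟩ := h2 θ
  exact ⟨f, hf, by rw [h]; exact Set.subset_union_left⟩

end Pool.Agent.Results.MP_04172d_lc.ContainsHamel
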